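import Mathlib

open Cardinal Set

namespace Pool.Agent.Results.MP_4ec73f_lc.Max

/-- Two Boolean algebras of sets of reals are equivalent if they are isomorphic. -/
def iso : Setoid (BooleanSubalgebra (Set ℝ)) where
  r B C := Nonempty (B ≃o C)
  iseqv := ⟨fun B => ⟨OrderIso.refl B⟩, fun ⟨e⟩ => ⟨e.symm⟩, fun ⟨e⟩ ⟨f⟩ => ⟨e.trans f⟩⟩

theorem indep : ∃ A : Set ℝ → Set ℝ, ∀ (T : Finset (Set ℝ)) (S : Set (Set ℝ)),
    {x | ∀ Y ∈ T, x ∈ A Y ↔ Y ∈ S}.Infinite := by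
  classical
  obtain ⟨e⟩ : Nonempty (ℝ ≃ (Finset ℝ × Finset (Finset ℝ)) × ℕ) := Cardinal.eq.1 (by simp)
  refine ⟨fun Y => {x | (e x).1.1.filter (· ∈ Y) ∈ (e x).1.2}, fun T S => ?_⟩
  have : ∀ Y Z : Set ℝ, ∃ r, Y ≠ Z → ¬ (r ∈ Y ↔ r ∈ Z) := fun Y Z => by
    by_cases h : Y = Z
    · exact ⟨0, fun h' => absurd h h'⟩
    · obtain ⟨r, hr⟩ := not_forall.1 (mt Set.ext h)
      exact ⟨r, fun _ => hr⟩
  choose r hr using this
  let s := (T ×ˢ T).image fun p => r p.1 p.2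
  refine infinite_of_injective_forall_mem
    (f := fun n : ℕ => e.symm ((s, (T.filter (· ∈ S)).image fun Y => s.filter (· ∈ Y)), n))
    (fun m n h => by simpa using h) fun n Y hY => ?_
  simp only [mem_setOf_eq, Equiv.apply_symm_apply, Finset.mem_image, Finset.mem_filter]
  refine ⟨fun ⟨Z, ⟨h1, h2⟩, h3⟩ => ?_, fun h => ⟨Y, ⟨hY, h⟩, rfl⟩⟩
  by_contra h
  have hs : r Z Y ∈ s := Finset.mem_image.2 ⟨(Z, Y), Finset.mem_product.2 ⟨h1, hY⟩, rfl⟩
  have := Finset.ext_iff.1 h3 (r Z Y)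
  simp only [Finset.mem_filter, hs, true_and] at this
  exact hr Z Y (fun e => h (e ▸ h2)) this

/-- Sets containing a finite intersection of the `A Y`, `Y ∈ S`, up to a finite set. -/
def Big (A : Set ℝ → Set ℝ) (S : Set (Set ℝ)) (C : Set ℝ) : Prop :=
  ∃ T : Finset (Set ℝ), ↑T ⊆ S ∧ {x | (∀ Y ∈ T, x ∈ A Y) ∧ x ∉ C}.Finite

theorem Big.mono {A S C D} (h : Big A S C) (hCD : C ⊆ D) : Big A S D := by
  obtain ⟨T, h1, h2⟩ := h
  exact ⟨T, h1, h2.subset fun x hx => ⟨hx.1, fun h => hx.2 (hCD h)⟩⟩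

theorem Big.inter {A S C D} (h : Big A S C) (h' : Big A S D) : Big A S (C ∩ D) := by
  classical
  obtain ⟨T, h1, h2⟩ := h
  obtain ⟨T', h3, h4⟩ := h'
  refine ⟨T ∪ T', by simp [h1, h3], (h2.union h4).subset fun x hx => ?_⟩
  by_cases hc : x ∈ C
  · exact Or.inr ⟨fun Y hY => hx.1 Y (Finset.mem_union_right _ hY), fun h => hx.2 ⟨hc, h⟩⟩
  · exact Or.inl ⟨fun Y hY => hx.1 Y (Finset.mem_union_left _ hY), hc⟩

/-- The algebra of sets that are big or have big complement. -/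
def alg (A : Set ℝ → Set ℝ) (S : Set (Set ℝ)) : BooleanSubalgebra (Set ℝ) where
  carrier := {C | Big A S C ∨ Big A S Cᶜ}
  supClosed' := by
    rintro C (h | h) D h'
    · exact Or.inl (h.mono subset_union_left)
    · rcases h' with h' | h'
      · exact Or.inl (h'.mono subset_union_right)
      · exact Or.inr ((h.inter h').mono (compl_union C D).ge)
  infClosed' := by
    rintro C (h | h) D h'
    · rcases h' with h' | h'
      · exact Or.inl (h.inter h')
      · exact Or.inr (h'.mono (compl_subset_compl.2 inter_subset_right))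
    · exact Or.inr (h.mono (compl_subset_compl.2 inter_subset_left))
  compl_mem' := by
    rintro C (h | h)
    · exact Or.inr (h.mono (compl_compl C).ge)
    · exact Or.inl h
  bot_mem' := Or.inr ⟨∅, by simp, by simp⟩

end Pool.Agent.Results.MP_4ec73f_lc.Max

open Pool.Agent.Results.MP_4ec73f_lc.Max in
theorem Pool.Agent.Results.MP_4ec73f_lc.Max.result :
    #(Quotient iso) = 2 ^ (2 : Cardinal.{0}) ^ continuum := by
  classical
  have h0 : #(Set (Set ℝ)) = 2 ^ (2 : Cardinal.{0}) ^ continuum := by simp [mk_real]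
  refine le_antisymm (mk_quotient_le.trans (h0 ▸ mk_le_of_injective SetLike.coe_injective)) ?_
  obtain ⟨A, hA⟩ := indep
  have key : ∀ S Y, A Y ∈ alg A S ↔ Y ∈ S := fun S Y => by
    refine ⟨fun h => ?_, fun h => Or.inl ⟨{Y}, by simpa, by simp⟩⟩
    by_contra hY
    rcases h with ⟨T, h1, h2⟩ | ⟨T, h1, h2⟩
    · exact hA (insert Y T) S (h2.subset fun x hx =>
        ⟨fun Z hZ => (hx Z (Finset.mem_insert_of_mem hZ)).2 (h1 hZ),
          fun h => hY ((hx Y (Finset.mem_insert_self _ _)).1 h)⟩)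
    · exact hA (insert Y T) (insert Y S) (h2.subset fun x hx =>
        ⟨fun Z hZ => (hx Z (Finset.mem_insert_of_mem hZ)).2 (Or.inr (h1 hZ)),
          fun h => h ((hx Y (Finset.mem_insert_self _ _)).2 (Or.inl rfl))⟩)
  have sing : ∀ S x, {x} ∈ alg A S := fun S x =>
    Or.inr ⟨∅, by simp, (finite_singleton x).subset fun y hy => not_not.1 hy.2⟩
  have ex : ∀ S, ∃ g : ℝ → Set ℝ, ∀ C, C ∈ alg A S ↔
      ∃ D ∈ (Quotient.mk iso (alg A S)).out, C = {x | g x ⊆ D} := fun S => by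
    obtain ⟨e⟩ := iso.symm (Quotient.mk_out (s := iso) (alg A S))
    have : ∀ C : alg A S, C.1 = {x | (e ⟨{x}, sing S x⟩).1 ⊆ (e C).1} := fun C => by
      ext x
      exact singleton_subset_iff.symm.trans (e.le_iff_le (x := ⟨{x}, sing S x⟩) (y := C)).symm
    refine ⟨fun x => (e ⟨{x}, sing S x⟩).1, fun C => ⟨fun h => ⟨_, (e ⟨C, h⟩).2, this ⟨C, h⟩⟩, ?_⟩⟩
    rintro ⟨D, hD, rfl⟩
    have h := this (e.symm ⟨D, hD⟩)
    rw [e.apply_symm_apply] at h
    exact h ▸ (e.symm ⟨D, hD⟩).2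
  choose g hg using ex
  have inj : Function.Injective fun S => (Quotient.mk iso (alg A S), g S) := fun S S' h => by
    ext Y
    obtain ⟨h1, h2⟩ := Prod.mk.inj h
    rw [← key, ← key, hg, hg, h1, h2]
  have h1 := mk_le_of_injective inj
  rw [h0, mk_prod, lift_id, lift_id] at h1
  have h2 : #(ℝ → Set ℝ) = 2 ^ continuum := by
    simp [← power_mul, mk_real]
  by_contra h
  exact absurd h1 (not_le.2 (mul_lt_of_lt
    (aleph0_le_continuum.trans ((cantor _).trans (cantor _)).le) (not_le.1 h) (h2 ▸ cantor _)))
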